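import Mathlib
import Pool.Agent.X213.Forms
import Pool.Agent.X213.Eng4

set_option autoImplicit false

/-!
# The SHGH conjecture: classes controlled by the fourth largest multiplicity

The class `(d; w)` is `Far` (`Pool.Agent.X213.Eng4.Far`) if its multiplicities `v 0 ≥ v 1 ≥ ⋯` in
decreasing order satisfy one of the following conditions:
* `v 3 = 0`, or `2 (v 3) ^ 2 + 3 v 3 + 2 ≤ v 2`;
* `2 ^ 17 (v 3 + 1) ^ 4 + ∑_{i < 3} v i (v i + 1) ≤ (d + 1) (d + 2)`, or
  `2 ^ 17 (v 3 + 1) ^ 4 ≤ ∑_{i ≥ 3} (v i + 1).choose 2`;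
* `v i ≤ m` for all `i ≥ 5`, where `m ≥ 1`, and `4 m ^ 2 + 8 m + 5 ≤ v 2`, or one of the two
  inequalities before with `4 m ^ 2 + 8 m + 5` instead of `v 3 + 1`.

Every class in the Weyl group orbit of a standard class which is `Far` has `h⁰ = max (0, χ)` at general
points. For every class `D` and general points at least one of the following holds:
`h⁰ (D) = max (0, χ)`; some `(-1)`-curve `C` has `C D ≤ -2`; or `D`, after the removal of disjoint
`(-1)`-curves, each taken once, and finitely many quadratic transformations, is a standard class with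
the same `h⁰`, different from `max (0, χ)`, which is not `Far`.
-/

namespace Pool.Agent.Results.MP_70e04f_ag.FourthMultiplicityForms

open MvPolynomial Pool.Agent.TH167.SHDefs
open Pool.Agent.Y536.SH (Standard)
open Pool.Agent.X213.Forms (ForGeneral Carries hZero chi)
open Pool.Agent.X213.Eng4 (Far)

theorem result (r d : ℕ) (w : Fin (r + 4) → ℕ) : ForGeneral fun P : Fin (r + 4) → Fin 2 → ℂ =>
    ((∃ (d' : ℕ) (w' : Fin (r + 4) → ℕ), Carries d w d' w' ∧ Standard d' w' ∧ Far d' w') →
      hZero P d w = max 0 (chi d w)) ∧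
    (hZero P d w = max 0 (chi d w) ∨
      (∃ (G : MvPolynomial (Fin 3) ℂ) (e : ℕ) (u : Fin (r + 4) → ℕ), MinusOne P G e u ∧
        inter d w e u ≤ -2) ∨
      ∃ (d'' : ℕ) (w'' : Fin (r + 4) → ℕ) (k : ℕ) (G : Fin k → MvPolynomial (Fin 3) ℂ)
        (e : Fin k → ℕ) (u : Fin k → Fin (r + 4) → ℕ) (d' : ℕ) (w' : Fin (r + 4) → ℕ),
        Decomp P d w d'' w'' G e u (fun _ => 1) ∧
        Relation.ReflTransGen Quadratic (d'', w'') (d', w') ∧ Standard d' w' ∧
        hZero P d' w' = hZero P d w ∧ hZero P d' w' ≠ max 0 (chi d' w') ∧ ¬ Far d' w') :=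
  Pool.Agent.X213.Forms.shgh (Q := fun d' w' => Far d' w')
    (fun _ _ _ _ hP _ _ hs hG => Pool.Agent.X213.Eng4.far_exp hs hG hP) d w

end Pool.Agent.Results.MP_70e04f_ag.FourthMultiplicityForms
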