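import Mathlib
import Pool.Agent.X214.NV.Dom

set_option autoImplicit false

/-!
# The SHGH conjecture for near-uniform multiplicities at 36 or more points

Let `v` take only the values `m`, `m + 1`, `m ≥ 1` arbitrary, on a set `S` of at least `36` of the
`n` points. Let the multiplicities `w` be at most `v` on `S`, and at most `1` at the other points.
If `w = v` on `S`, or `∑ (v i + 1).choose 2 ≤ (d + 2).choose 2` (sum over `S`), then for general
points of the complex projective plane the divisor `d H - ∑ w i E i` has `h⁰ = max (0, χ)`.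

In particular all near-uniform divisors at `n ≥ 36` points (`w = v`, `S` all points) have
`h⁰ = max (0, χ)` in every degree `d`.
-/

namespace Pool.Agent.Results.MP_70e04f_ag.NearUniformExplicit

open MvPolynomial Pool.Agent.X214.NV

/-- Forms of degree `d` vanishing to order at least `w i` at the points `(P i 0 : P i 1 : 1)`. -/
noncomputable def forms {n : ℕ} (P : Fin n → Fin 2 → ℂ) (d : ℕ) (w : Fin n → ℕ) :
    Submodule ℂ (MvPolynomial (Fin 3) ℂ) :=
  homogeneousSubmodule (Fin 3) ℂ d ⊓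
    Submodule.restrictScalars ℂ
      (⨅ i : Fin n, (Ideal.span {X 0 - C (P i 0) * X 2, X 1 - C (P i 1) * X 2} :
        Ideal (MvPolynomial (Fin 3) ℂ)) ^ (w i))

/-- `h⁰(d H - ∑ w i E i) = max (0, χ(d H - ∑ w i E i))` on the blow-up of the plane at the points
`P`. -/
def Expected {n : ℕ} (P : Fin n → Fin 2 → ℂ) (d : ℕ) (w : Fin n → ℕ) : Prop :=
  (Module.finrank ℂ ↥(forms P d w) : ℤ) =
    max 0 (((d + 2).choose 2 : ℤ) - ∑ i, ((w i + 1).choose 2 : ℤ))

theorem expected_of {n : ℕ} {P : Fin n → Fin 2 → ℂ} {d : ℕ} {w : Fin n → ℕ}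
    (h : Pool.Agent.H932R3.ExpDim ℂ w P d) : Expected P d w := by
  unfold Pool.Agent.H932R3.ExpDim at h
  unfold Expected forms
  rw [h]
  have e : ∑ i, ((w i + 1).choose 2 : ℤ) = ((∑ i, (w i + 1).choose 2 : ℕ) : ℤ) := by
    push_cast
    rfl
  rw [e]
  omega

theorem result : ∀ (n d : ℕ) (w : Fin n → ℕ), Dominated d w →
    ∃ F : MvPolynomial (Fin n × Fin 2) ℂ, F ≠ 0 ∧
      ∀ P : Fin n → Fin 2 → ℂ, eval (fun ij : Fin n × Fin 2 => P ij.1 ij.2) F ≠ 0 →
        Expected P d w := by
  intro n d w h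
  obtain ⟨F, hF, hF'⟩ := dom_open h
  refine ⟨F.map (algebraMap ℚ ℂ), Pool.Agent.H932R3.map_ne_zero_of hF, fun P hP => ?_⟩
  rw [MvPolynomial.eval_map] at hP
  exact expected_of (hF' (L := ℂ) P hP)

end Pool.Agent.Results.MP_70e04f_ag.NearUniformExplicit
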